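import Pool.Agent.H64.AK.Defs

open Topology

namespace Pool.Agent.H54.AK

open Pool.Agent.H64.AK Pool.Agent.H20.SL

theorem sw : T_SW := by
  intro X _ _ E hE hsep f ε hε
  obtain ⟨e0, he0⟩ := hE
  let em : E → C(X, ℝ) := fun e => ⟨e.1, hsep.1 e.1 e.2⟩
  let Φ : MvPolynomial E ℚ →ₐ[ℚ] C(X, ℝ) := MvPolynomial.aeval em
  let K : Subalgebra ℚ C(X, ℝ) := Φ.range.topologicalClosure
  have hK : IsClosed (K : Set C(X, ℝ)) := Subalgebra.isClosed_topologicalClosure _
  have hsm : ∀ (r : ℝ) (g : C(X, ℝ)), g ∈ K → r • g ∈ K := by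
    intro r g hg
    have hcl : IsClosed {r : ℝ | r • g ∈ K} := by
      have hc : Continuous fun r : ℝ => r • g := continuous_id.smul continuous_const
      exact hK.preimage hc
    refine Rat.denseRange_cast.induction_on (p := fun r : ℝ => r • g ∈ K) r hcl fun q => ?_
    have h1 : ((q : ℝ) • g : C(X, ℝ)) = q • g := by
      ext x
      simp [Rat.smul_def]
    show ((q : ℝ) • g : C(X, ℝ)) ∈ K
    rw [h1]
    exact K.smul_mem hg q
  let B : Subalgebra ℝ C(X, ℝ) :=
    { carrier := K
      mul_mem' := fun ha hb => K.mul_mem ha hb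
      one_mem' := K.one_mem
      add_mem' := fun ha hb => K.add_mem ha hb
      zero_mem' := K.zero_mem
      algebraMap_mem' := fun r => by
        rw [Algebra.algebraMap_eq_smul_one]
        exact hsm r 1 K.one_mem }
  have hrange : ∀ e : E, em e ∈ K := fun e =>
    Subalgebra.le_topologicalClosure _ ⟨MvPolynomial.X e, MvPolynomial.aeval_X _ _⟩
  have hB : B.SeparatesPoints := by
    intro x y hxy
    obtain ⟨g, hg, hgxy⟩ := hsep.2 x y hxy
    exact ⟨g, ⟨em ⟨g, hg⟩, hrange ⟨g, hg⟩, rfl⟩, hgxy⟩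
  have htop := ContinuousMap.subalgebra_topologicalClosure_eq_top_of_separatesPoints B hB
  have hf : (⟨f.1, f.2⟩ : C(X, ℝ)) ∈ (K : Set C(X, ℝ)) := by
    have h1 : (⟨f.1, f.2⟩ : C(X, ℝ)) ∈ B.topologicalClosure := by
      rw [htop]
      exact Algebra.mem_top
    have h2 : (⟨f.1, f.2⟩ : C(X, ℝ)) ∈ closure (B : Set C(X, ℝ)) := h1
    have h3 : closure (B : Set C(X, ℝ)) = (K : Set C(X, ℝ)) := hK.closure_eq
    rw [h3] at h2
    exact h2
  have hf2 : (⟨f.1, f.2⟩ : C(X, ℝ)) ∈ closure (Φ.range : Set C(X, ℝ)) := hf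
  obtain ⟨g, ⟨p0, hp0⟩, hg⟩ := Metric.mem_closure_iff.1 hf2 ε hε
  obtain ⟨k, i, hi, p1, hp1⟩ := MvPolynomial.exists_fin_rename p0
  refine ⟨fun j => if h : j < k then (i ⟨j, h⟩).1 else e0, MvPolynomial.rename Fin.val p1, ?_, ?_⟩
  · intro j
    dsimp only
    split_ifs with h
    · exact (i ⟨j, h⟩).2
    · exact he0
  · intro x
    have h1 : (MvPolynomial.aeval (fun j => (if h : j < k then (i ⟨j, h⟩).1 else e0) x))
        (MvPolynomial.rename Fin.val p1) = g x := by
      rw [← hp0, MvPolynomial.aeval_rename]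
      have h2 : ∀ q : MvPolynomial E ℚ, (Φ q) x = MvPolynomial.aeval (fun e : E => e.1 x) q := by
        intro q
        induction q using MvPolynomial.induction_on with
        | C a =>
          show (MvPolynomial.aeval em (MvPolynomial.C a)) x = _
          rw [MvPolynomial.aeval_C, MvPolynomial.aeval_C]
          rfl
        | add p q hp hq => rw [map_add, map_add, ← hp, ← hq]; rfl
        | mul_X p e hp =>
          rw [map_mul, map_mul, ← hp, MvPolynomial.aeval_X, MvPolynomial.aeval_X]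
          rfl
      have h4 : (Φ.toRingHom p0) x = MvPolynomial.aeval (fun e : E => e.1 x) p0 := h2 p0
      rw [h4, hp1, MvPolynomial.aeval_rename]
      congr 2
      funext j
      simp [Function.comp]
    rw [h1]
    have h5 := ContinuousMap.dist_apply_le_dist (f := (⟨f.1, f.2⟩ : C(X, ℝ))) (g := g) x
    rw [Real.dist_eq] at h5
    exact lt_of_le_of_lt h5 hg

end Pool.Agent.H54.AK
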